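import Pool.Agent.Helper35.BQ.E4b

/-!
MP_986e36_gt, blocks E4a and E4c: chains of exact midpoints and minimal one-parameter groups.
-/

open scoped Topology
open Set Metric

noncomputable section

namespace Helper99.BQ

section E4c
variable {K : Type*} [Group K] [MetricSpace K] {E : Type*} [NormedAddCommGroup E]
  [InnerProductSpace ℝ E]

theorem exists_chain_list (hK : BiInv K) (k : ℕ) : ∀ x : K,
    ∃ L : List K, L.length = 2 ^ k ∧ L.prod = x ∧ ∀ z ∈ L, dist 1 z = dist 1 x / 2 ^ k := by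
  induction k with
  | zero =>
    intro x
    exact ⟨[x], by simp⟩
  | succ k ih =>
    intro x
    obtain ⟨m, hm1, hm2⟩ := hK.mid 1 x
    obtain ⟨L₁, hl₁, hp₁, hz₁⟩ := ih m
    obtain ⟨L₂, hl₂, hp₂, hz₂⟩ := ih (m⁻¹ * x)
    have h2 : dist 1 (m⁻¹ * x) = dist 1 x / 2 := by
      rw [← hK.left m 1 (m⁻¹ * x), mul_one, mul_inv_cancel_left, hm2]
    refine ⟨L₁ ++ L₂, ?_, ?_, ?_⟩
    · rw [List.length_append, hl₁, hl₂, pow_succ]; ring
    · rw [List.prod_append, hp₁, hp₂, mul_inv_cancel_left]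
    · intro z hz
      rcases List.mem_append.mp hz with h | h
      · rw [hz₁ z h, hm1, pow_succ]; field_simp
      · rw [hz₂ z h, h2, pow_succ]; field_simp

/-- E4a -/
theorem exists_chain (hK : BiInv K) (x : K) (k : ℕ) :
    ∃ z : Fin (2 ^ k) → K, (List.ofFn z).prod = x ∧ ∀ i, dist 1 (z i) = dist 1 x / 2 ^ k := by
  obtain ⟨L, hl, hp, hz⟩ := exists_chain_list hK k x
  refine ⟨fun i => L.get (i.cast hl.symm), ?_, ?_⟩
  · have : List.ofFn (fun i : Fin (2 ^ k) => L.get (i.cast hl.symm)) = L := by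
      have h1 := List.ofFn_congr hl.symm (fun i : Fin (2 ^ k) => L.get (i.cast hl.symm))
      rw [h1]
      exact List.ofFn_get L
    rw [this, hp]
  · intro i
    exact hz _ (List.get_mem L _)

theorem dist_ofFn_prod_le (hK : BiInv K) {n : ℕ} (f g : Fin n → K) :
    dist (List.ofFn f).prod (List.ofFn g).prod ≤ ∑ i, dist (f i) (g i) := by
  induction n with
  | zero => simp
  | succ n ih =>
    rw [List.ofFn_succ, List.ofFn_succ, List.prod_cons, List.prod_cons, Fin.sum_univ_succ]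
    have h1 := ih (fun i => f i.succ) (fun i => g i.succ)
    have h2 := dist_triangle (f 0 * (List.ofFn fun i => f i.succ).prod)
      (f 0 * (List.ofFn fun i => g i.succ).prod) (g 0 * (List.ofFn fun i => g i.succ).prod)
    rw [hK.left, hK.right] at h2
    linarith

theorem PreExp.exp_nsmul' (e : PreExp K E) (X : E) (n : ℕ) :
    e.exp ((n : ℝ) • X) = e.exp X ^ n := by
  induction n with
  | zero => simp [e.exp_zero']
  | succ n ih => rw [Nat.cast_succ, e.add, ih, one_smul, pow_succ]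

theorem PreExp.continuous' (e : PreExp K E) : Continuous e.exp :=
  (LipschitzWith.of_dist_le_mul (K := 1) fun X Y => by
    rw [dist_eq_norm, NNReal.coe_one, one_mul]; exact e.lip X Y).continuous

theorem continuous_prod_exp (hK : BiInv K) (e : PreExp K E) (n : ℕ) :
    Continuous fun Z : Fin n → E => (List.ofFn fun i => e.exp (Z i)).prod := by
  refine (LipschitzWith.of_dist_le_mul (K := n) fun Z Z' => ?_).continuous
  refine (dist_ofFn_prod_le hK _ _).trans ?_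
  calc ∑ i, dist (e.exp (Z i)) (e.exp (Z' i)) ≤ ∑ _i : Fin n, dist Z Z' :=
        Finset.sum_le_sum fun i _ => (e.lip _ _).trans (by
          rw [← dist_eq_norm]; exact dist_le_pi_dist Z Z' i)
    _ = _ := by simp

theorem approx_log [FiniteDimensional ℝ E] (hK : BiInv K) (e : PreExp K E)
    (conj : ∀ (g : K) (X : E), ∃ X' : E, ‖X'‖ = ‖X‖ ∧
      ∀ t : ℝ, g * e.exp (t • X) * g⁻¹ = e.exp (t • X'))
    (x : K) {ε : ℝ} (hε : 0 < ε) (hε1 : ε ≤ 1 / 2) :
    ∃ X : E, ‖X‖ ≤ (1 + 2 * ε) * dist 1 x ∧ dist (e.exp X) x ≤ ε * ((1 + 2 * ε) * dist 1 x) := by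
  set L : ℝ := dist 1 x with hL
  have hL0 : 0 ≤ L := dist_nonneg
  obtain ⟨r₁, r₁pos, h₁⟩ := e.bch ε hε
  obtain ⟨r₂, r₂pos, h₂⟩ := e.lower ε hε
  set r : ℝ := min r₁ r₂ with hr
  have rpos : 0 < r := lt_min r₁pos r₂pos
  obtain ⟨ρ, ρpos, hρ⟩ := Metric.mem_nhds_iff.mp (e.nhds (r / 2) (by positivity))
  -- choice of `k`
  obtain ⟨k, hk⟩ : ∃ k : ℕ, max (L / ρ) (4 * L ^ 2 / (r / 8) ^ 2) < (2 : ℝ) ^ k :=
    pow_unbounded_of_one_lt _ one_lt_two
  have hk1 : L / 2 ^ k < ρ := by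
    have := (le_max_left _ _).trans_lt hk
    rw [div_lt_iff₀ ρpos] at this
    rw [div_lt_iff₀ (by positivity)]
    linarith
  have hk2 : 4 * L ^ 2 / 2 ^ k < (r / 8) ^ 2 := by
    have := (le_max_right _ _).trans_lt hk
    rw [div_lt_iff₀ (by positivity)] at this
    rw [div_lt_iff₀ (by positivity)]
    linarith
  set n : ℕ := 2 ^ k with hn
  have hnR : (n : ℝ) = 2 ^ k := by rw [hn]; push_cast; rfl
  have hnpos : 0 < n := by positivity
  have hnRpos : (0 : ℝ) < n := by exact_mod_cast hnpos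
  rw [← hnR] at hk1 hk2
  -- the chain
  obtain ⟨z, hzp, hzd⟩ := exists_chain hK x k
  have hzlog : ∀ i, ∃ Z : E, ‖Z‖ < r / 2 ∧ e.exp Z = z i := by
    intro i
    have : z i ∈ ball (1 : K) ρ := by
      rw [mem_ball, dist_comm, hzd, ← hnR]
      exact hk1
    obtain ⟨Z, hZ, hZe⟩ := hρ this
    exact ⟨Z, by simpa using hZ, hZe⟩
  choose Z₀ hZ₀r hZ₀e using hzlog
  have hZ₀n : ∀ i, ‖Z₀ i‖ ≤ (1 + 2 * ε) * L / n := by
    intro i
    have h3 := h₂ (Z₀ i) 0 ((hZ₀r i).trans_le (by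
      have : r ≤ r₂ := min_le_right _ _
      linarith)) (by simpa using r₂pos)
    rw [sub_zero, e.exp_zero', hZ₀e, dist_comm, hzd, ← hnR] at h3
    have h4 : 1 ≤ (1 - ε) * (1 + 2 * ε) := by nlinarith
    have h5 : ‖Z₀ i‖ ≤ (1 - ε) * (1 + 2 * ε) * ‖Z₀ i‖ := by
      nlinarith [norm_nonneg (Z₀ i)]
    calc ‖Z₀ i‖ ≤ (1 - ε) * (1 + 2 * ε) * ‖Z₀ i‖ := h5
      _ = (1 + 2 * ε) * ((1 - ε) * ‖Z₀ i‖) := by ring
      _ ≤ (1 + 2 * ε) * (L / n) := mul_le_mul_of_nonneg_left h3 (by positivity)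
      _ = _ := by ring
  -- the compact set
  set S : Set (Fin n → E) := {Z | (∀ i, ‖Z i‖ ≤ r / 2) ∧ (List.ofFn fun i => e.exp (Z i)).prod = x}
    with hS
  have hSc : IsCompact S := by
    have h3 : IsCompact (Set.pi Set.univ fun _ : Fin n => closedBall (0 : E) (r / 2)) :=
      isCompact_univ_pi fun _ => isCompact_closedBall _ _
    have h4 : IsClosed {Z : Fin n → E | (List.ofFn fun i => e.exp (Z i)).prod = x} :=
      isClosed_eq (continuous_prod_exp hK e n) continuous_const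
    have h5 : S = (Set.pi Set.univ fun _ : Fin n => closedBall (0 : E) (r / 2)) ∩
        {Z : Fin n → E | (List.ofFn fun i => e.exp (Z i)).prod = x} := by
      ext Z
      simp [hS, Set.mem_pi]
    rw [h5]
    exact h3.inter_right h4
  have hZ₀S : Z₀ ∈ S := by
    refine ⟨fun i => (hZ₀r i).le, ?_⟩
    rw [show (fun i => e.exp (Z₀ i)) = z from funext hZ₀e]
    exact hzp
  obtain ⟨Z, hZS, hZmin⟩ := hSc.exists_isMinOn ⟨Z₀, hZ₀S⟩
    (f := fun Z : Fin n → E => ∑ i, ‖Z i‖ ^ 2) (by fun_prop)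
  have hZle : ∑ i, ‖Z i‖ ^ 2 ≤ ((1 + 2 * ε) * L) ^ 2 / n := by
    calc ∑ i, ‖Z i‖ ^ 2 ≤ ∑ i, ‖Z₀ i‖ ^ 2 := hZmin hZ₀S
      _ ≤ ∑ _i : Fin n, ((1 + 2 * ε) * L / n) ^ 2 :=
          Finset.sum_le_sum fun i _ => pow_le_pow_left₀ (norm_nonneg _) (hZ₀n i) 2
      _ = _ := by
          rw [Finset.sum_const, Finset.card_univ, Fintype.card_fin, nsmul_eq_mul]
          field_simp
  have hZle2 : ∑ i, ‖Z i‖ ^ 2 ≤ 4 * L ^ 2 / n := by
    refine hZle.trans (div_le_div_of_nonneg_right ?_ hnRpos.le)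
    have : (1 + 2 * ε) * L ≤ 2 * L := mul_le_mul_of_nonneg_right (by linarith) hL0
    have h3 := pow_le_pow_left₀ (by positivity) this 2
    linarith
  have hZsmall : ∀ i, ‖Z i‖ < r / 8 := by
    intro i
    have h3 : ‖Z i‖ ^ 2 ≤ ∑ i, ‖Z i‖ ^ 2 :=
      Finset.single_le_sum (f := fun i => ‖Z i‖ ^ 2) (fun i _ => by positivity) (Finset.mem_univ i)
    exact lt_of_pow_lt_pow_left₀ 2 (by positivity) ((h3.trans hZle2).trans_lt hk2)
  have key := energy_minimiser hK e conj hε hε1 (r := r / 2) (by positivity) ?_ hnpos Z ?_ ?_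
  · set Zb : E := (1 / (n : ℝ)) • ∑ j, Z j with hZb
    have hsq : ∀ a : Fin n → ℝ, (∀ i, 0 ≤ a i) → ∀ c : ℝ, 0 ≤ c →
        ∑ i, a i ^ 2 ≤ c ^ 2 / n → ∑ i, a i ≤ c := by
      intro a ha c hc h
      have h3 : (∑ i, a i) ^ 2 ≤ n * ∑ i, a i ^ 2 := by
        have := sq_sum_le_card_mul_sum_sq (s := (Finset.univ : Finset (Fin n))) (f := a)
        simpa using this
      have h4 : (n : ℝ) * ∑ i, a i ^ 2 ≤ c ^ 2 := by
        rw [le_div_iff₀ hnRpos] at h
        linarith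
      exact le_of_sq_le_sq (h3.trans h4) hc
    refine ⟨(n : ℝ) • Zb, ?_, ?_⟩
    · have h3 : (n : ℝ) • Zb = ∑ j, Z j := by
        rw [hZb, smul_smul, mul_one_div_cancel hnRpos.ne', one_smul]
      rw [h3]
      refine (norm_sum_le _ _).trans ?_
      exact hsq (fun i => ‖Z i‖) (fun i => norm_nonneg _) _ (by positivity) hZle
    · have h3 : e.exp ((n : ℝ) • Zb) = (List.ofFn fun _ : Fin n => e.exp Zb).prod := by
        rw [e.exp_nsmul', List.ofFn_const, List.prod_replicate]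
      rw [h3, ← hZS.2]
      refine (dist_ofFn_prod_le hK _ _).trans ?_
      refine (Finset.sum_le_sum fun i _ => e.lip Zb (Z i)).trans ?_
      refine hsq (fun i => ‖Zb - Z i‖) (fun i => norm_nonneg _) _ (by positivity) ?_
      calc ∑ i, ‖Zb - Z i‖ ^ 2 = ∑ i, ‖Z i - Zb‖ ^ 2 :=
            Finset.sum_congr rfl fun i _ => by rw [norm_sub_rev]
        _ ≤ ε ^ 2 * ∑ i, ‖Z i‖ ^ 2 := key
        _ ≤ ε ^ 2 * (((1 + 2 * ε) * L) ^ 2 / n) := mul_le_mul_of_nonneg_left hZle (by positivity)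
        _ = _ := by ring
  · intro X W hX hW
    have h3 : r ≤ r₁ := min_le_left _ _
    exact h₁ X W (by linarith) (by linarith)
  · intro i
    have := hZsmall i
    linarith
  · intro Z' hZ' hp
    exact hZmin ⟨fun i => (hZ' i).le, hp.trans hZS.2⟩

theorem preExp_surj_of_conj [FiniteDimensional ℝ E] (hK : BiInv K) (e : PreExp K E)
    (conj : ∀ (g : K) (X : E), ∃ X' : E, ‖X'‖ = ‖X‖ ∧
      ∀ t : ℝ, g * e.exp (t • X) * g⁻¹ = e.exp (t • X'))
    (x : K) : ∃ X : E, e.exp X = x ∧ ‖X‖ = dist 1 x := by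
  set L : ℝ := dist 1 x with hL
  have hL0 : 0 ≤ L := dist_nonneg
  obtain ⟨X, -, hXmin⟩ := (isCompact_closedBall (0 : E) (2 * L)).exists_isMinOn
    ⟨0, by simp [hL0]⟩ (f := fun X : E => max (‖X‖ - L) (dist (e.exp X) x))
    ((continuous_norm.sub continuous_const).max
      (e.continuous'.dist continuous_const)).continuousOn
  have hle : ∀ ε : ℝ, 0 < ε → ε ≤ 1 / 2 → max (‖X‖ - L) (dist (e.exp X) x) ≤ ε * (2 * L) := by
    intro ε hε hε1
    obtain ⟨Y, hY1, hY2⟩ := approx_log hK e conj x hε hε1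
    rw [← hL] at hY1 hY2
    have h1 : (1 + 2 * ε) * L ≤ 2 * L := mul_le_mul_of_nonneg_right (by linarith) hL0
    have h2 : Y ∈ closedBall (0 : E) (2 * L) := by
      rw [mem_closedBall_zero_iff]; linarith
    refine (hXmin h2).trans (max_le ?_ ?_)
    · linarith
    · exact hY2.trans (mul_le_mul_of_nonneg_left h1 hε.le)
  have hle0 : max (‖X‖ - L) (dist (e.exp X) x) ≤ 0 := by
    refine le_of_forall_pos_le_add fun δ hδ => ?_
    have h1 := hle (min (1 / 2) (δ / (2 * L + 1))) (lt_min (by norm_num) (by positivity))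
      (min_le_left _ _)
    refine h1.trans ?_
    rw [zero_add]
    calc min (1 / 2) (δ / (2 * L + 1)) * (2 * L) ≤ δ / (2 * L + 1) * (2 * L) :=
          mul_le_mul_of_nonneg_right (min_le_right _ _) (by positivity)
      _ ≤ δ := by
          rw [div_mul_eq_mul_div, div_le_iff₀ (by positivity)]
          nlinarith
  have h1 : ‖X‖ - L ≤ 0 := (le_max_left _ _).trans hle0
  have h2 : dist (e.exp X) x ≤ 0 := (le_max_right _ _).trans hle0
  have h3 : e.exp X = x := dist_le_zero.mp h2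
  refine ⟨X, h3, le_antisymm (by linarith) ?_⟩
  have h4 := e.lip 0 X
  rw [e.exp_zero', h3, zero_sub, norm_neg] at h4
  exact h4

end E4c

end Helper99.BQ
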