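import Pool.Agent.Helper99.BQ.Defs

/-!
MP_986e36_gt, block E4b: the variation inequality for minimisers of the energy.
-/

open scoped Topology
open Set Metric

noncomputable section

namespace Helper99.BQ

section E4
variable {K : Type*} [Group K] [MetricSpace K] {E : Type*} [NormedAddCommGroup E]
  [InnerProductSpace ℝ E]

/-- ordered product of the first `k` terms -/
def pr (f : ℕ → K) : ℕ → K
  | 0 => 1
  | k + 1 => pr f k * f k

omit [MetricSpace K] in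
theorem pr_eq (f : ℕ → K) (k : ℕ) : pr f k = (List.ofFn fun i : Fin k => f i).prod := by
  induction k with
  | zero => simp [pr]
  | succ k ih =>
    rw [pr, ih, List.ofFn_succ', List.concat_eq_append, List.prod_append]
    simp

omit [MetricSpace K] in
theorem pr_telescope (f v : ℕ → K) (k : ℕ) :
    pr (fun i => (v i)⁻¹ * f i * v (i + 1)) k = (v 0)⁻¹ * pr f k * v k := by
  induction k with
  | zero => simp [pr]
  | succ k ih => simp only [pr]; rw [ih]; group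

omit [MetricSpace K] in
theorem pr_congr {f g : ℕ → K} {k : ℕ} (h : ∀ i < k, f i = g i) : pr f k = pr g k := by
  induction k with
  | zero => rfl
  | succ k ih =>
    simp only [pr]
    rw [ih (fun i hi => h i (Nat.lt_succ_of_lt hi)), h k (Nat.lt_succ_self k)]

theorem PreExp.exp_zero' (e : PreExp K E) : e.exp 0 = 1 := by
  have h := e.add 0 0 0
  simp only [smul_zero] at h
  exact mul_eq_left.mp h.symm

theorem PreExp.exp_neg' (e : PreExp K E) (X : E) : e.exp (-X) = (e.exp X)⁻¹ := by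
  have h := e.add X 1 (-1)
  simp only [add_neg_cancel, zero_smul, one_smul, neg_smul] at h
  rw [e.exp_zero'] at h
  exact eq_inv_of_mul_eq_one_right h.symm

/-- `v_{k+1} = exp (h W_k) v_k` -/
def vv (e : PreExp K E) (W : ℕ → E) (h : ℝ) : ℕ → K
  | 0 => 1
  | k + 1 => e.exp (h • W k) * vv e W h k

theorem exists_partial (e : PreExp K E) (W : ℕ → E) (k : ℕ) :
    ∀ η > 0, ∃ h₀ > 0, ∀ h : ℝ, 0 < h → h < h₀ → ∃ S : E,
      e.exp S = vv e W h k ∧ ‖S - h • ∑ i ∈ Finset.range k, W i‖ ≤ η * h := by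
  induction k with
  | zero =>
    intro η hη
    refine ⟨1, one_pos, fun h h0 _ => ⟨0, ?_, ?_⟩⟩
    · simp [vv, e.exp_zero']
    · simp only [Finset.range_zero, Finset.sum_empty, smul_zero, sub_zero, norm_zero]
      positivity
  | succ k ih =>
    intro η hη
    set M : ℝ := ‖∑ i ∈ Finset.range k, W i‖ + 1 with hM
    have hMpos : 0 < M := by positivity
    obtain ⟨h₁, h₁pos, H₁⟩ := ih (min (η / 2) 1) (lt_min (by positivity) one_pos)
    obtain ⟨r', r'pos, hr'⟩ := e.bch (η / (2 * M)) (by positivity)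
    refine ⟨min h₁ (min (r' / (‖W k‖ + 1)) (r' / M)), ?_, ?_⟩
    · refine lt_min h₁pos (lt_min ?_ ?_) <;> positivity
    intro h h0 hlt
    have hlt1 : h < h₁ := lt_of_lt_of_le hlt (min_le_left _ _)
    have hlt2 : h < r' / (‖W k‖ + 1) :=
      lt_of_lt_of_le hlt ((min_le_right _ _).trans (min_le_left _ _))
    have hlt3 : h < r' / M := lt_of_lt_of_le hlt ((min_le_right _ _).trans (min_le_right _ _))
    obtain ⟨S, hS, hSn⟩ := H₁ h h0 hlt1
    have hS1 : ‖S - h • ∑ i ∈ Finset.range k, W i‖ ≤ η / 2 * h :=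
      hSn.trans (mul_le_mul_of_nonneg_right (min_le_left _ _) h0.le)
    have hS2 : ‖S - h • ∑ i ∈ Finset.range k, W i‖ ≤ 1 * h :=
      hSn.trans (mul_le_mul_of_nonneg_right (min_le_right _ _) h0.le)
    have hS3 : ‖S‖ ≤ h * M := by
      have : S = (S - h • ∑ i ∈ Finset.range k, W i) + h • ∑ i ∈ Finset.range k, W i := by abel
      rw [this]
      refine (norm_add_le _ _).trans ?_
      rw [norm_smul, Real.norm_of_nonneg h0.le]
      rw [hM]
      linarith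
    have hW1 : ‖h • W k‖ < r' := by
      rw [norm_smul, Real.norm_of_nonneg h0.le]
      rw [lt_div_iff₀ (by positivity)] at hlt2
      nlinarith [norm_nonneg (W k)]
    have hS4 : ‖S‖ < r' := by
      rw [lt_div_iff₀ hMpos] at hlt3
      linarith
    obtain ⟨Y, hY, hYn⟩ := hr' (h • W k) S hW1 hS4
    refine ⟨Y, ?_, ?_⟩
    · rw [hY, hS]; rfl
    · rw [Finset.sum_range_succ, smul_add]
      have : Y - (h • ∑ i ∈ Finset.range k, W i + h • W k)
          = (Y - h • W k - S) + (S - h • ∑ i ∈ Finset.range k, W i) := by abel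
      rw [this]
      refine (norm_add_le _ _).trans ?_
      have h5 : η / (2 * M) * ‖S‖ ≤ η / 2 * h := by
        calc η / (2 * M) * ‖S‖ ≤ η / (2 * M) * (h * M) :=
              mul_le_mul_of_nonneg_left hS3 (by positivity)
          _ = η / 2 * h := by field_simp
      linarith

/-- the inequality for a fixed small `h` -/
theorem energy_step (e : PreExp K E)
    (conj : ∀ (g : K) (X : E), ∃ X' : E, ‖X'‖ = ‖X‖ ∧
      ∀ t : ℝ, g * e.exp (t • X) * g⁻¹ = e.exp (t • X'))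
    {ε r : ℝ} (hε : 0 < ε) (hε1 : ε ≤ 1 / 2) (hr : 0 < r)
    (hbch : ∀ X W : E, ‖X‖ < r → ‖W‖ < r → ∃ Z : E, e.exp Z = e.exp X * e.exp W ∧
      ‖Z - X - W‖ ≤ ε * ‖W‖)
    (m : ℕ) (Z W : ℕ → E) (hZ : ∀ i ≤ m, ‖Z i‖ < r / 4)
    (hmin : ∀ Z' : ℕ → E, (∀ i ≤ m, ‖Z' i‖ < r) →
      pr (fun i => e.exp (Z' i)) (m + 1) = pr (fun i => e.exp (Z i)) (m + 1) →
      ∑ i ∈ Finset.range (m + 1), ‖Z i‖ ^ 2 ≤ ∑ i ∈ Finset.range (m + 1), ‖Z' i‖ ^ 2)
    {h η : ℝ} (h0 : 0 < h) (hη : 0 < η) (hh : ∀ i ≤ m, h * ‖W i‖ < r / 8) {B : E}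
    (hB : e.exp B = vv e W h (m + 1)) (hBn : ‖B‖ ≤ η * h) (hη2 : η * h < r / 8) :
    0 ≤ 2 * h * (∑ i ∈ Finset.range (m + 1), inner ℝ (Z i) (W i)
      + ε * ∑ i ∈ Finset.range (m + 1), ‖Z i‖ * ‖W i‖)
      + (∑ i ∈ Finset.range (m + 1), 3 * ‖W i‖ ^ 2) * h ^ 2 + 4 * r * η * h
      + 4 * (η * h) ^ 2 := by
  have h1 : ∀ i, ∃ Y : E, i ≤ m → e.exp Y = e.exp (Z i) * e.exp (h • W i) ∧
      ‖Y - Z i - h • W i‖ ≤ ε * ‖h • W i‖ := by
    intro i
    by_cases hi : i ≤ m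
    · have hw : ‖h • W i‖ < r := by
        rw [norm_smul, Real.norm_of_nonneg h0.le]
        have := hh i hi
        linarith
      have hz : ‖Z i‖ < r := by
        have := hZ i hi
        linarith
      obtain ⟨Y, hY⟩ := hbch (Z i) (h • W i) hz hw
      exact ⟨Y, fun _ => hY⟩
    · exact ⟨0, fun hi' => absurd hi' hi⟩
  choose Y hY using h1
  have h2 : ∀ i, ∃ Y' : E, ‖Y'‖ = ‖Y i‖ ∧
      (vv e W h i)⁻¹ * e.exp (Y i) * vv e W h i = e.exp Y' := by
    intro i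
    obtain ⟨Y', hY', hY''⟩ := conj (vv e W h i)⁻¹ (Y i)
    refine ⟨Y', hY', ?_⟩
    have := hY'' 1
    simpa using this
  choose Y' hY'n hY'e using h2
  -- norm bound of `Y i`
  have hYn : ∀ i ≤ m, ‖Y i‖ ≤ ‖Z i + h • W i‖ + ε * (h * ‖W i‖) := by
    intro i hi
    have h3 := (hY i hi).2
    rw [norm_smul, Real.norm_of_nonneg h0.le] at h3
    have : Y i = (Y i - Z i - h • W i) + (Z i + h • W i) := by abel
    calc ‖Y i‖ = ‖(Y i - Z i - h • W i) + (Z i + h • W i)‖ := by rw [← this]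
      _ ≤ _ := norm_add_le _ _
      _ ≤ _ := by linarith
  have hYr : ∀ i ≤ m, ‖Y i‖ < r / 2 := by
    intro i hi
    have h3 := hYn i hi
    have h4 : ‖Z i + h • W i‖ ≤ ‖Z i‖ + h * ‖W i‖ := by
      refine (norm_add_le _ _).trans ?_
      rw [norm_smul, Real.norm_of_nonneg h0.le]
    have h5 := hh i hi
    have h6 := hZ i hi
    have h7 : ε * (h * ‖W i‖) ≤ 1 / 2 * (h * ‖W i‖) :=
      mul_le_mul_of_nonneg_right hε1 (by positivity)
    linarith
  have hYsq : ∀ i ≤ m, ‖Y i‖ ^ 2 ≤ ‖Z i‖ ^ 2 + 2 * h * inner ℝ (Z i) (W i)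
      + 2 * h * ε * (‖Z i‖ * ‖W i‖) + 3 * ‖W i‖ ^ 2 * h ^ 2 := by
    intro i hi
    have h3 := hYn i hi
    have hsq : ‖Z i + h • W i‖ ^ 2 = ‖Z i‖ ^ 2 + 2 * h * inner ℝ (Z i) (W i)
        + h ^ 2 * ‖W i‖ ^ 2 := by
      rw [norm_add_sq_real, inner_smul_right, norm_smul, Real.norm_of_nonneg h0.le]
      ring
    have h4 : ‖Z i + h • W i‖ ≤ ‖Z i‖ + h * ‖W i‖ := by
      refine (norm_add_le _ _).trans ?_
      rw [norm_smul, Real.norm_of_nonneg h0.le]
    have h5 : ‖Y i‖ ^ 2 ≤ (‖Z i + h • W i‖ + ε * (h * ‖W i‖)) ^ 2 :=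
      pow_le_pow_left₀ (norm_nonneg _) h3 2
    have h6 : ‖Z i + h • W i‖ * (ε * (h * ‖W i‖)) ≤ (‖Z i‖ + h * ‖W i‖) * (ε * (h * ‖W i‖)) :=
      mul_le_mul_of_nonneg_right h4 (by positivity)
    have h7 : ε * (‖W i‖ ^ 2 * h ^ 2) ≤ 1 / 2 * (‖W i‖ ^ 2 * h ^ 2) :=
      mul_le_mul_of_nonneg_right hε1 (by positivity)
    have h8 : ε ^ 2 * (‖W i‖ ^ 2 * h ^ 2) ≤ 1 / 4 * (‖W i‖ ^ 2 * h ^ 2) := by
      refine mul_le_mul_of_nonneg_right ?_ (by positivity)
      nlinarith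
    have h9 : 0 ≤ ‖W i‖ ^ 2 * h ^ 2 := by positivity
    nlinarith
  -- the last factor
  have hBr : ‖-B‖ < r := by rw [norm_neg]; linarith
  have hYm : ‖Y' m‖ < r := by
    rw [hY'n]
    have := hYr m le_rfl
    linarith
  obtain ⟨Y'', hY''e, hY''n⟩ := hbch (Y' m) (-B) hYm hBr
  have hY''b : ‖Y''‖ ≤ ‖Y m‖ + 2 * (η * h) := by
    have : Y'' = (Y'' - Y' m - -B) + (Y' m + -B) := by abel
    calc ‖Y''‖ = ‖(Y'' - Y' m - -B) + (Y' m + -B)‖ := by rw [← this]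
      _ ≤ ‖Y'' - Y' m - -B‖ + ‖Y' m + -B‖ := norm_add_le _ _
      _ ≤ ε * ‖-B‖ + (‖Y' m‖ + ‖-B‖) := add_le_add hY''n (norm_add_le _ _)
      _ ≤ ‖Y m‖ + 2 * (η * h) := by
          rw [norm_neg, hY'n]
          have : ε * ‖B‖ ≤ 1 / 2 * ‖B‖ := mul_le_mul_of_nonneg_right hε1 (norm_nonneg _)
          have := norm_nonneg B
          linarith
  have hY''sq : ‖Y''‖ ^ 2 ≤ ‖Y m‖ ^ 2 + 4 * r * η * h + 4 * (η * h) ^ 2 := by
    have h3 : ‖Y''‖ ^ 2 ≤ (‖Y m‖ + 2 * (η * h)) ^ 2 := pow_le_pow_left₀ (norm_nonneg _) hY''b 2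
    have h4 := hYr m le_rfl
    have h5 : ‖Y m‖ * (η * h) ≤ r * (η * h) :=
      mul_le_mul_of_nonneg_right (by linarith) (by positivity)
    nlinarith
  -- the competitor
  have hcomp := hmin (fun i => if i = m then Y'' else Y' i) ?_ ?_
  · rw [Finset.sum_range_succ, Finset.sum_range_succ (fun i => ‖if i = m then Y'' else Y' i‖ ^ 2)]
      at hcomp
    simp only [if_true] at hcomp
    have h3 : ∑ i ∈ Finset.range m, ‖if i = m then Y'' else Y' i‖ ^ 2
        ≤ ∑ i ∈ Finset.range m, (‖Z i‖ ^ 2 + 2 * h * inner ℝ (Z i) (W i)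
          + 2 * h * ε * (‖Z i‖ * ‖W i‖) + 3 * ‖W i‖ ^ 2 * h ^ 2) := by
      refine Finset.sum_le_sum fun i hi => ?_
      have him : i < m := Finset.mem_range.mp hi
      rw [if_neg him.ne, hY'n]
      exact hYsq i him.le
    have h4 := hYsq m le_rfl
    simp only [Finset.sum_add_distrib, ← Finset.mul_sum, ← Finset.sum_mul] at h3
    simp only [Finset.sum_range_succ, ← Finset.mul_sum]
    nlinarith [hY''sq, h3, h4, hcomp]
  · intro i hi
    split_ifs with him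
    · have := hYr m le_rfl
      linarith
    · rw [hY'n]
      have := hYr i hi
      linarith
  · have e1 : pr (fun i => e.exp (if i = m then Y'' else Y' i)) (m + 1)
        = pr (fun i => e.exp (Y' i)) (m + 1) * (e.exp B)⁻¹ := by
      simp only [pr, if_true]
      rw [hY''e, e.exp_neg', mul_assoc]
      congr 1
      refine pr_congr fun i hi => ?_
      rw [if_neg hi.ne]
    rw [e1]
    have e2 : pr (fun i => e.exp (Y' i)) (m + 1)
        = pr (fun i => (vv e W h i)⁻¹ * e.exp (Z i) * vv e W h (i + 1)) (m + 1) := by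
      refine pr_congr fun i hi => ?_
      rw [← hY'e i, (hY i (Nat.lt_succ_iff.mp hi)).1]
      simp only [vv]
      group
    rw [e2, pr_telescope, hB]
    have e3 : vv e W h 0 = 1 := rfl
    rw [e3]
    group

theorem energy_core (e : PreExp K E)
    (conj : ∀ (g : K) (X : E), ∃ X' : E, ‖X'‖ = ‖X‖ ∧
      ∀ t : ℝ, g * e.exp (t • X) * g⁻¹ = e.exp (t • X'))
    {ε r : ℝ} (hε : 0 < ε) (hε1 : ε ≤ 1 / 2) (hr : 0 < r)
    (hbch : ∀ X W : E, ‖X‖ < r → ‖W‖ < r → ∃ Z : E, e.exp Z = e.exp X * e.exp W ∧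
      ‖Z - X - W‖ ≤ ε * ‖W‖)
    (m : ℕ) (Z W : ℕ → E) (hZ : ∀ i ≤ m, ‖Z i‖ < r / 4)
    (hW : ∑ i ∈ Finset.range (m + 1), W i = 0)
    (hmin : ∀ Z' : ℕ → E, (∀ i ≤ m, ‖Z' i‖ < r) →
      pr (fun i => e.exp (Z' i)) (m + 1) = pr (fun i => e.exp (Z i)) (m + 1) →
      ∑ i ∈ Finset.range (m + 1), ‖Z i‖ ^ 2 ≤ ∑ i ∈ Finset.range (m + 1), ‖Z' i‖ ^ 2) :
    0 ≤ ∑ i ∈ Finset.range (m + 1), inner ℝ (Z i) (W i)
      + ε * ∑ i ∈ Finset.range (m + 1), ‖Z i‖ * ‖W i‖ := by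
  by_contra hneg
  rw [not_le] at hneg
  set A : ℝ := ∑ i ∈ Finset.range (m + 1), inner ℝ (Z i) (W i)
      + ε * ∑ i ∈ Finset.range (m + 1), ‖Z i‖ * ‖W i‖ with hA
  set C : ℝ := ∑ i ∈ Finset.range (m + 1), 3 * ‖W i‖ ^ 2 with hC
  have hC0 : 0 ≤ C := Finset.sum_nonneg fun i _ => by positivity
  set η : ℝ := min 1 (-A / (8 * r)) with hη
  have hηpos : 0 < η := lt_min one_pos (div_pos (by linarith) (by positivity))
  have hη1 : η ≤ 1 := min_le_left _ _
  have hη2 : 8 * r * η ≤ -A := by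
    have : η ≤ -A / (8 * r) := min_le_right _ _
    rw [le_div_iff₀ (by positivity)] at this
    linarith
  obtain ⟨h₁, h₁pos, H⟩ := exists_partial e W (m + 1) η hηpos
  set Mx : ℝ := ∑ i ∈ Finset.range (m + 1), ‖W i‖ with hMx
  have hMx0 : 0 ≤ Mx := Finset.sum_nonneg fun i _ => norm_nonneg _
  have hWle : ∀ i ≤ m, ‖W i‖ ≤ Mx := fun i hi =>
    Finset.single_le_sum (f := fun i => ‖W i‖) (fun i _ => norm_nonneg _)
      (Finset.mem_range.mpr (Nat.lt_succ_of_le hi))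
  -- choice of `h`
  obtain ⟨h, h0, hl⟩ : ∃ h : ℝ, 0 < h ∧ h < min (min h₁ (r / (8 * (Mx + 1))))
      (min (-A / (2 * (C + 4))) (r / 8)) := by
    refine exists_between ?_
    have : 0 < -A := by linarith
    refine lt_min (lt_min h₁pos ?_) (lt_min ?_ ?_) <;> positivity
  have l1 : h < h₁ := hl.trans_le ((min_le_left _ _).trans (min_le_left _ _))
  have l2 : h < r / (8 * (Mx + 1)) := hl.trans_le ((min_le_left _ _).trans (min_le_right _ _))
  have l3 : h < -A / (2 * (C + 4)) := hl.trans_le ((min_le_right _ _).trans (min_le_left _ _))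
  have l4 : h < r / 8 := hl.trans_le ((min_le_right _ _).trans (min_le_right _ _))
  obtain ⟨B, hB, hBn⟩ := H h h0 l1
  rw [hW, smul_zero, sub_zero] at hBn
  rw [lt_div_iff₀ (by positivity)] at l2 l3
  have hηh : η * h ≤ h := by nlinarith
  have key := energy_step e conj hε hε1 hr hbch m Z W hZ hmin h0 hηpos ?_ hB hBn (by linarith)
  · rw [← hA, ← hC] at key
    have h5 : 4 * (η * h) ^ 2 ≤ 4 * h ^ 2 := by
      have : (η * h) ^ 2 ≤ h ^ 2 := pow_le_pow_left₀ (by positivity) hηh 2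
      linarith
    have h6 : 4 * r * η * h ≤ -A / 2 * h := by nlinarith
    have h7 : (C + 4) * h ^ 2 ≤ -A / 2 * h := by nlinarith
    nlinarith
  · intro i hi
    have := hWle i hi
    nlinarith

/-- E4b: the variation inequality for minimisers of the energy. -/
theorem energy_minimiser (_hK : BiInv K) (e : PreExp K E)
    (conj : ∀ (g : K) (X : E), ∃ X' : E, ‖X'‖ = ‖X‖ ∧
      ∀ t : ℝ, g * e.exp (t • X) * g⁻¹ = e.exp (t • X'))
    {ε r : ℝ} (hε : 0 < ε) (hε1 : ε ≤ 1 / 2) (hr : 0 < r)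
    (hbch : ∀ X W : E, ‖X‖ < r → ‖W‖ < r → ∃ Z : E, e.exp Z = e.exp X * e.exp W ∧
      ‖Z - X - W‖ ≤ ε * ‖W‖)
    {n : ℕ} (hn : 0 < n) (Z : Fin n → E) (hZ : ∀ i, ‖Z i‖ < r / 4)
    (hmin : ∀ Z' : Fin n → E, (∀ i, ‖Z' i‖ < r) →
      (List.ofFn fun i => e.exp (Z' i)).prod = (List.ofFn fun i => e.exp (Z i)).prod →
      ∑ i, ‖Z i‖ ^ 2 ≤ ∑ i, ‖Z' i‖ ^ 2) :
    ∑ i, ‖Z i - (1 / (n : ℝ)) • ∑ j, Z j‖ ^ 2 ≤ ε ^ 2 * ∑ i, ‖Z i‖ ^ 2 := by
  obtain ⟨m, rfl⟩ : ∃ m, n = m + 1 := ⟨n - 1, by omega⟩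
  set Zb : E := (1 / ((m + 1 : ℕ) : ℝ)) • ∑ j, Z j with hZb
  -- extension to `ℕ`
  let Zn : ℕ → E := fun i => if hi : i < m + 1 then Z ⟨i, hi⟩ else 0
  have hZn : ∀ i : Fin (m + 1), Zn i = Z i := fun i => dif_pos i.2
  let W : ℕ → E := fun i => Zb - Zn i
  have hsumZ : ∑ i ∈ Finset.range (m + 1), Zn i = ∑ j, Z j := by
    rw [Finset.sum_range]
    exact Finset.sum_congr rfl fun i _ => hZn i
  have hnb : ((m + 1 : ℕ) : ℝ) • Zb = ∑ j, Z j := by
    rw [hZb, smul_smul, mul_one_div_cancel, one_smul]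
    positivity
  have hW : ∑ i ∈ Finset.range (m + 1), W i = 0 := by
    simp only [W, Finset.sum_sub_distrib, Finset.sum_const, Finset.card_range]
    rw [hsumZ, ← hnb, Nat.cast_smul_eq_nsmul, sub_self]
  have key := energy_core e conj hε hε1 hr hbch m Zn W ?_ hW ?_
  · have e1 : ∑ i ∈ Finset.range (m + 1), inner ℝ (Zn i) (W i)
        = -∑ i ∈ Finset.range (m + 1), ‖W i‖ ^ 2 := by
      have : ∀ i, (inner ℝ (Zn i) (W i) : ℝ) = inner ℝ Zb (W i) - ‖W i‖ ^ 2 := by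
        intro i
        have h1 : Zn i = Zb - W i := by simp [W]
        rw [← real_inner_self_eq_norm_sq, ← inner_sub_left, ← h1]
      rw [Finset.sum_congr rfl fun i _ => this i, Finset.sum_sub_distrib, ← inner_sum, hW,
        inner_zero_right, zero_sub]
    rw [e1] at key
    have e2 : ε * ∑ i ∈ Finset.range (m + 1), ‖Zn i‖ * ‖W i‖
        ≤ ∑ i ∈ Finset.range (m + 1), (ε ^ 2 * ‖Zn i‖ ^ 2 + ‖W i‖ ^ 2) / 2 := by
      rw [Finset.mul_sum]
      refine Finset.sum_le_sum fun i _ => ?_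
      nlinarith [sq_nonneg (ε * ‖Zn i‖ - ‖W i‖)]
    rw [← Finset.sum_div, Finset.sum_add_distrib, ← Finset.mul_sum] at e2
    have e3 : ∑ i ∈ Finset.range (m + 1), ‖Zn i‖ ^ 2 = ∑ i, ‖Z i‖ ^ 2 := by
      rw [Finset.sum_range]
      exact Finset.sum_congr rfl fun i _ => by rw [hZn]
    have e4 : ∑ i ∈ Finset.range (m + 1), ‖W i‖ ^ 2 = ∑ i, ‖Z i - Zb‖ ^ 2 := by
      rw [Finset.sum_range]
      refine Finset.sum_congr rfl fun i _ => ?_
      simp only [W, hZn]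
      rw [norm_sub_rev]
    rw [e3, e4] at e2
    rw [e4] at key
    linarith
  · intro i hi
    have : Zn i = Z ⟨i, by omega⟩ := dif_pos (Nat.lt_succ_of_le hi)
    rw [this]
    exact hZ _
  · intro Z' hZ' hp
    have := hmin (fun i => Z' i) (fun i => hZ' i (Nat.lt_succ_iff.mp i.2)) ?_
    · rw [Finset.sum_range, Finset.sum_range]
      refine le_trans (le_of_eq ?_) this
      exact Finset.sum_congr rfl fun i _ => by rw [hZn]
    · rw [pr_eq, pr_eq] at hp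
      rw [hp]
      congr 1
      congr 1
      funext i
      rw [hZn]

end E4

end Helper99.BQ
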