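import Pool.Agent.Helper35.BQ.E4ac
import Pool.Agent.Helper40.BQ.E3

/-!
MP_986e36_gt, block E4c: minimal one-parameter groups.
-/

open scoped Topology
open Set Metric

noncomputable section

namespace Helper99.BQ

variable {K : Type*} [Group K] [MetricSpace K] {E : Type*} [NormedAddCommGroup E]
  [InnerProductSpace ℝ E]

/-- E4c: minimal one-parameter groups. -/
theorem preExp_surj [CompactSpace K] [FiniteDimensional ℝ E] (hK : BiInv K) (e : PreExp K E)
    (x : K) : ∃ X : E, e.exp X = x ∧ ‖X‖ = dist 1 x :=
  preExp_surj_of_conj hK e (fun g X => preExp_conj hK e g X) x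

end Helper99.BQ
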