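import Pool.Agent.Helper99.BQ.Basic
import Pool.Agent.Helper60.BQ.H0

/-!
MP_986e36_gt, block S2: the metric tensor of the counterexample on the unit sphere of the
quaternions.
-/

open scoped Manifold ContDiff Quaternion ENNReal Topology
open Bundle Set Metric

noncomputable section

namespace Helper99.BQ

theorem contDiff_flip' {E F G : Type*} [NormedAddCommGroup E] [NormedSpace ℝ E]
    [NormedAddCommGroup F] [NormedSpace ℝ F] [NormedAddCommGroup G] [NormedSpace ℝ G] :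
    ContDiff ℝ ∞ (fun f : E →L[ℝ] F →L[ℝ] G => f.flip) := by
  have : IsBoundedLinearMap ℝ (fun f : E →L[ℝ] F →L[ℝ] G => f.flip) := by
    refine ⟨⟨fun f g => ?_, fun c f => ?_⟩, 1, one_pos, fun f => ?_⟩
    · ext; simp
    · ext; simp
    · simp
  exact this.contDiff

section Gen
variable {F : Type*} [NormedAddCommGroup F] [InnerProductSpace ℝ F] {n : ℕ}
  [Fact (Module.finrank ℝ F = n + 1)]

/-- the inner product as a bilinear map -/
def IN (F : Type*) [NormedAddCommGroup F] [InnerProductSpace ℝ F] : F →L[ℝ] F →L[ℝ] ℝ :=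
  (innerSL ℝ (E := F) : F →L[ℝ] F →L[ℝ] ℝ)

omit [Fact (Module.finrank ℝ F = n + 1)] in
theorem IN_apply (v w : F) : IN F v w = inner ℝ v w := rfl

/-- the ambient bilinear form -/
def BB (V : F → F) (y : F) : F →L[ℝ] F →L[ℝ] ℝ :=
  IN F - (IN F ((1 / (1 + ‖V y‖ ^ 2)) • V y)).smulRight (IN F (V y))

omit [Fact (Module.finrank ℝ F = n + 1)] in
theorem BB_apply (V : F → F) (y v w : F) : BB V y v w =
    inner ℝ v w - inner ℝ v (V y) * inner ℝ w (V y) / (1 + ‖V y‖ ^ 2) := by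
  simp only [BB, sub_apply, smul_apply, ContinuousLinearMap.smulRight_apply, IN_apply, smul_eq_mul,
    real_inner_smul_left]
  rw [real_inner_comm v (V y), real_inner_comm w (V y)]
  ring

omit [Fact (Module.finrank ℝ F = n + 1)] in
theorem contDiff_BB {V : F → F} (h1 : ContDiff ℝ ∞ V) : ContDiff ℝ ∞ (BB V) := by
  have h2 : ContDiff ℝ ∞ (fun y => IN F (V y)) := (IN F).contDiff.comp h1
  have h3 : ContDiff ℝ ∞ (fun y : F => 1 / (1 + ‖V y‖ ^ 2)) := by
    refine contDiff_const.div (contDiff_const.add (h1.norm_sq ℝ)) fun y => ?_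
    positivity
  have h4 : ContDiff ℝ ∞ (fun y : F => IN F ((1 / (1 + ‖V y‖ ^ 2)) • V y)) :=
    (IN F).contDiff.comp (h3.smul h1)
  have h5 : ContDiff ℝ ∞ (fun y : F =>
      (IN F ((1 / (1 + ‖V y‖ ^ 2)) • V y)).smulRight (IN F (V y))) := h4.smulRight h2
  exact contDiff_const.sub h5

omit [Fact (Module.finrank ℝ F = n + 1)] in
theorem BB_lower (V : F → F) (y v : F) : ‖v‖ ^ 2 / (1 + ‖V y‖ ^ 2) ≤ BB V y v v := by
  rw [BB_apply, real_inner_self_eq_norm_sq]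
  have h1 : |inner ℝ v (V y)| ≤ ‖v‖ * ‖V y‖ := abs_real_inner_le_norm _ _
  have h2 : inner ℝ v (V y) * inner ℝ v (V y) ≤ ‖v‖ ^ 2 * ‖V y‖ ^ 2 := by
    have := mul_self_le_mul_self (abs_nonneg _) h1
    rw [abs_mul_abs_self] at this
    linarith
  have h3 : (0 : ℝ) < 1 + ‖V y‖ ^ 2 := by positivity
  rw [div_le_iff₀ h3, sub_mul, div_mul_cancel₀ _ h3.ne']
  linarith

/-- the derivative of the inclusion of the sphere, as a linear map on the model space -/
def Dι (x : sphere (0 : F) 1) : EuclideanSpace ℝ (Fin n) →L[ℝ] F :=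
  mfderiv (𝓡 n) 𝓘(ℝ, F) (fun y : sphere (0 : F) 1 => (y : F)) x

set_option linter.deprecated false in
theorem Dι_injective (x : sphere (0 : F) 1) : Function.Injective (Dι (n := n) x) :=
  mfderiv_coe_sphere_injective x

/-- the metric tensor on the model space -/
def gg (V : F → F) (x : sphere (0 : F) 1) :
    EuclideanSpace ℝ (Fin n) →L[ℝ] EuclideanSpace ℝ (Fin n) →L[ℝ] ℝ :=
  (BB V x).bilinearComp (Dι x) (Dι x)

theorem gg_apply (V : F → F) (x : sphere (0 : F) 1) (v w : EuclideanSpace ℝ (Fin n)) :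
    gg V x v w = BB V x (Dι x v) (Dι x w) := rfl

set_option backward.isDefEq.respectTransparency false in
theorem contMDiff_gg {V : F → F} (hV : ContDiff ℝ ∞ V) : ContMDiff (𝓡 n)
    ((𝓡 n).prod 𝓘(ℝ, EuclideanSpace ℝ (Fin n) →L[ℝ] EuclideanSpace ℝ (Fin n) →L[ℝ] ℝ)) ∞
    (fun x : sphere (0 : F) 1 => TotalSpace.mk' (EuclideanSpace ℝ (Fin n) →L[ℝ]
      EuclideanSpace ℝ (Fin n) →L[ℝ] ℝ) (E := fun x : sphere (0 : F) 1 =>
        TangentSpace (𝓡 n) x →L[ℝ] TangentSpace (𝓡 n) x →L[ℝ] ℝ) x (gg V x)) := by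
  intro x₀
  rw [contMDiffAt_section]
  set φ : sphere (0 : F) 1 → EuclideanSpace ℝ (Fin n) →L[ℝ] F :=
    inTangentCoordinates (𝓡 n) 𝓘(ℝ, F) id (fun y : sphere (0 : F) 1 => (y : F)) Dι x₀
    with hφ
  have hφs : ContMDiffAt (𝓡 n) 𝓘(ℝ, EuclideanSpace ℝ (Fin n) →L[ℝ] F) ∞ φ x₀ :=
    ContMDiffAt.mfderiv_const (n := ∞)
      (f := fun y : sphere (0 : F) 1 => (y : F)) (contMDiff_coe_sphere x₀) (by norm_num)
  have hBs : ContMDiffAt (𝓡 n) 𝓘(ℝ, F →L[ℝ] F →L[ℝ] ℝ) ∞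
      (fun x : sphere (0 : F) 1 => BB V (x : F)) x₀ :=
    (contDiff_BB hV).contMDiff.contMDiffAt.comp x₀ (contMDiff_coe_sphere x₀)
  have h1 : ContMDiffAt (𝓡 n) 𝓘(ℝ, EuclideanSpace ℝ (Fin n) →L[ℝ] F →L[ℝ] ℝ) ∞
      (fun x : sphere (0 : F) 1 => (BB V (x : F)).comp (φ x)) x₀ := hBs.clm_comp hφs
  have f1 : ContDiff ℝ ∞
      (fun f : EuclideanSpace ℝ (Fin n) →L[ℝ] F →L[ℝ] ℝ => f.flip) := contDiff_flip'
  have f2 : ContDiff ℝ ∞ (fun f :
      EuclideanSpace ℝ (Fin n) →L[ℝ] EuclideanSpace ℝ (Fin n) →L[ℝ] ℝ => f.flip) :=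
    contDiff_flip'
  have h2 : ContMDiffAt (𝓡 n) 𝓘(ℝ, F →L[ℝ] EuclideanSpace ℝ (Fin n) →L[ℝ] ℝ) ∞
      (fun x : sphere (0 : F) 1 => ((BB V (x : F)).comp (φ x)).flip) x₀ :=
    f1.contMDiff.contMDiffAt.comp x₀ h1
  have h3 : ContMDiffAt (𝓡 n)
      𝓘(ℝ, EuclideanSpace ℝ (Fin n) →L[ℝ] EuclideanSpace ℝ (Fin n) →L[ℝ] ℝ) ∞
      (fun x : sphere (0 : F) 1 => (((BB V (x : F)).comp (φ x)).flip).comp (φ x)) x₀ :=
    h2.clm_comp hφs
  have h4 : ContMDiffAt (𝓡 n)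
      𝓘(ℝ, EuclideanSpace ℝ (Fin n) →L[ℝ] EuclideanSpace ℝ (Fin n) →L[ℝ] ℝ) ∞
      (fun x : sphere (0 : F) 1 => ((((BB V (x : F)).comp (φ x)).flip).comp (φ x)).flip) x₀ :=
    f2.contMDiff.contMDiffAt.comp x₀ h3
  refine h4.congr_of_eventuallyEq ?_
  filter_upwards [(chartAt (EuclideanSpace ℝ (Fin n)) x₀).open_source.mem_nhds
    (mem_chart_source _ x₀)] with x hx
  ext v w
  have hφa : ∀ v, φ x v = Dι x ((trivializationAt (EuclideanSpace ℝ (Fin n))
      (TangentSpace (𝓡 n)) x₀).symm x v) := by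
    intro v
    simp only [hφ, inTangentCoordinates, ContinuousLinearMap.inCoordinates,
      TangentBundle.continuousLinearMapAt_model_space, ContinuousLinearMap.comp_apply]
    exact congrArg (Dι x) ((trivializationAt (EuclideanSpace ℝ (Fin n))
      (TangentSpace (𝓡 n)) x₀).symmL_apply (R := ℝ) (by simpa using hx) v)
  rw [hom_trivializationAt_apply]
  simp only []
  rw [inCoordinates_apply_eq₂ (by simpa using hx) (by simpa using hx) (Set.mem_univ _)]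
  simp only [ContinuousLinearMap.flip_apply, ContinuousLinearMap.comp_apply, hφa]
  simp
  rfl

theorem gg_symm (V : F → F) (x : sphere (0 : F) 1) (v w : EuclideanSpace ℝ (Fin n)) :
    gg V x v w = gg V x w v := by
  rw [gg_apply, gg_apply, BB_apply, BB_apply, real_inner_comm]
  ring

theorem gg_lower (V : F → F) (x : sphere (0 : F) 1) (v : EuclideanSpace ℝ (Fin n)) :
    ‖Dι x v‖ ^ 2 / (1 + ‖V x‖ ^ 2) ≤ gg V x v v := BB_lower V x _

theorem gg_pos (V : F → F) (x : sphere (0 : F) 1) (v : EuclideanSpace ℝ (Fin n)) (hv : v ≠ 0) :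
    0 < gg V x v v := by
  refine lt_of_lt_of_le ?_ (gg_lower V x v)
  have h1 : Dι x v ≠ 0 := fun h => hv (Dι_injective x (by rw [h, map_zero]))
  have := norm_pos_iff.mpr h1
  positivity

theorem gg_bounded (V : F → F) (x : sphere (0 : F) 1) :
    Bornology.IsVonNBounded ℝ {v : EuclideanSpace ℝ (Fin n) | gg V x v v < 1} := by
  obtain ⟨K, hK0, hK⟩ := (Dι (n := n) x).toLinearMap.exists_antilipschitzWith
    (LinearMap.ker_eq_bot.mpr (Dι_injective x))
  refine NormedSpace.isVonNBounded_of_isBounded _ ?_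
  refine (Metric.isBounded_iff_subset_closedBall (0 : EuclideanSpace ℝ (Fin n))).mpr
    ⟨K * Real.sqrt (1 + ‖V x‖ ^ 2), fun v hv => ?_⟩
  have h1 := (gg_lower V x v).trans hv.le
  rw [div_le_one (by positivity)] at h1
  have h2 : ‖Dι x v‖ ≤ Real.sqrt (1 + ‖V x‖ ^ 2) := Real.le_sqrt_of_sq_le h1
  have h3 := hK.le_mul_dist v 0
  rw [mem_closedBall]
  refine h3.trans (mul_le_mul_of_nonneg_left ?_ K.coe_nonneg)
  simpa using h2

/-- the metric tensor -/
def metricTensor {V : F → F} (hV : ContDiff ℝ ∞ V) :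
    ContMDiffRiemannianMetric (𝓡 n) ∞ (EuclideanSpace ℝ (Fin n))
      (fun x : sphere (0 : F) 1 => TangentSpace (𝓡 n) x) where
  inner x := gg V x
  symm x v w := gg_symm V x v w
  pos x v hv := gg_pos V x v hv
  isVonNBounded x := gg_bounded V x
  contMDiff := contMDiff_gg hV

end Gen

instance : Fact (Module.finrank ℝ ℍ[ℝ] = 3 + 1) := ⟨by rw [Quaternion.finrank_eq_four]⟩

/-- the derivative of the inclusion of the sphere -/
def dι (x : sphere (0 : ℍ[ℝ]) 1) (v : TangentSpace (𝓡 3) x) : ℍ[ℝ] :=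
  mfderiv (𝓡 3) 𝓘(ℝ, ℍ[ℝ]) (fun y : sphere (0 : ℍ[ℝ]) 1 => (y : ℍ[ℝ])) x v

/-- S2 -/
theorem exists_metric_tensor (a b : ℝ) :
    ∃ g : ContMDiffRiemannianMetric (𝓡 3) ∞ (EuclideanSpace ℝ (Fin 3))
      (fun x : sphere (0 : ℍ[ℝ]) 1 => TangentSpace (𝓡 3) x),
      ∀ (x : sphere (0 : ℍ[ℝ]) 1) (v : TangentSpace (𝓡 3) x), g.inner x v v =
        ‖dι x v‖ ^ 2 - inner ℝ (dι x v) (killing a b x) ^ 2 /
          (1 + ‖killing a b (x : ℍ[ℝ])‖ ^ 2) := by
  refine ⟨metricTensor (contDiff_killing (a := a) (b := b)), fun x v => ?_⟩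
  have h : (metricTensor (contDiff_killing (a := a) (b := b))).inner x v v
      = BB (killing a b) (x : ℍ[ℝ]) (dι x v) (dι x v) := rfl
  rw [h, BB_apply, real_inner_self_eq_norm_sq]
  ring

end Helper99.BQ
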