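import Pool.Agent.Helper35.BQ.S2

/-!
MP_986e36_gt, blocks S3 and S4: the Riemannian distance of the metric tensor of block S2 is `dR`.
-/

open scoped Manifold ContDiff Quaternion ENNReal Topology
open Bundle Set Metric MeasureTheory

noncomputable section

namespace Helper99.BQ

section S34
variable {a b : ℝ}

theorem qi_mul_cis (θ : ℝ) : qi * cis θ = cis θ * qi := by
  ext <;> simp [cis, qi]

theorem qi_mul_cis' (θ : ℝ) : qi * cis θ = (-Real.sin θ) • (1 : ℍ[ℝ]) + Real.cos θ • qi := by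
  ext <;> simp [cis, qi]

theorem contDiff_cis : ContDiff ℝ ∞ cis := by
  have h : cis = fun θ => Real.cos θ • (1 : ℍ[ℝ]) + Real.sin θ • qi := funext cis_eq
  rw [h]
  exact (Real.contDiff_cos.smul contDiff_const).add (Real.contDiff_sin.smul contDiff_const)

theorem hasDerivWithinAt_tw_comp {A : ℝ → ℝ} {X : ℝ → ℍ[ℝ]} {A' : ℝ} {X' : ℍ[ℝ]} {s : Set ℝ}
    {t : ℝ} (hA : HasDerivWithinAt A A' s t) (hX : HasDerivWithinAt X X' s t) :
    HasDerivWithinAt (fun t => tw (a * A t) (b * A t) (X t))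
      (tw (a * A t) (b * A t) (X' + A' • killing a b (X t))) s t := by
  have h1 : HasDerivWithinAt (fun t => cis (a * A t)) ((a * A') • (qi * cis (a * A t))) s t :=
    HasDerivAt.scomp_hasDerivWithinAt (g₁ := cis) (h := fun t => a * A t) t
      (hasDerivAt_cis (a * A t)) (hA.const_mul a)
  have h2 : HasDerivWithinAt (fun t => cis (-(b * A t)))
      ((-(b * A')) • (qi * cis (-(b * A t)))) s t :=
    HasDerivAt.scomp_hasDerivWithinAt (g₁ := cis) (h := fun t => -(b * A t)) t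
      (hasDerivAt_cis (-(b * A t))) (hA.const_mul b).neg
  have h3 := (h1.mul hX).mul h2
  unfold tw
  refine h3.congr_deriv ?_
  simp only [Pi.mul_apply, killing, qi_mul_cis, smul_sub, mul_add, mul_sub, add_mul, sub_mul,
    smul_mul_assoc, mul_smul_comm, mul_assoc, smul_smul]
  module

/-! ### speed of a path on the sphere -/

/-- the squared speed of a path on the sphere, in terms of the ambient path -/
theorem speed_sq [RiemannianBundle (fun x : sphere (0 : ℍ[ℝ]) 1 => TangentSpace (𝓡 3) x)]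
    (h : ∀ (x : sphere (0 : ℍ[ℝ]) 1) (v : TangentSpace (𝓡 3) x), ‖v‖ ^ 2 =
        ‖dι x v‖ ^ 2 - inner ℝ (dι x v) (killing a b x) ^ 2 / (1 + ‖killing a b (x : ℍ[ℝ])‖ ^ 2))
    {γ : ℝ → sphere (0 : ℍ[ℝ]) 1} {s : Set ℝ} {t : ℝ}
    (hγ : MDifferentiableWithinAt 𝓘(ℝ, ℝ) (𝓡 3) γ s t) (hs : UniqueDiffWithinAt ℝ s t) :
    ‖mfderivWithin 𝓘(ℝ, ℝ) (𝓡 3) γ s t (1 : ℝ)‖ ^ 2 =
      ‖derivWithin (fun t => (γ t : ℍ[ℝ])) s t‖ ^ 2 -
        inner ℝ (derivWithin (fun t => (γ t : ℍ[ℝ])) s t) (killing a b (γ t : ℍ[ℝ])) ^ 2 /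
          (1 + ‖killing a b (γ t : ℍ[ℝ])‖ ^ 2) := by
  rw [h]
  have h1 : dι (γ t) (mfderivWithin 𝓘(ℝ, ℝ) (𝓡 3) γ s t (1 : ℝ)) =
      derivWithin (fun t => (γ t : ℍ[ℝ])) s t := by
    have h2 : mfderivWithin 𝓘(ℝ, ℝ) 𝓘(ℝ, ℍ[ℝ]) ((fun y : sphere (0 : ℍ[ℝ]) 1 => (y : ℍ[ℝ])) ∘ γ)
        s t = (mfderiv (𝓡 3) 𝓘(ℝ, ℍ[ℝ]) (fun y : sphere (0 : ℍ[ℝ]) 1 => (y : ℍ[ℝ])) (γ t)).comp
          (mfderivWithin 𝓘(ℝ, ℝ) (𝓡 3) γ s t) := by
      refine mfderiv_comp_mfderivWithin t ?_ hγ hs.uniqueMDiffWithinAt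
      exact (contMDiff_coe_sphere (m := 1) (γ t)).mdifferentiableAt one_ne_zero
    rw [← fderivWithin_derivWithin, ← mfderivWithin_eq_fderivWithin]
    exact (DFunLike.congr_fun h2 (1 : ℝ)).symm
  rw [h1]

/-! ### block S3 -/

theorem exists_orth (x : ℍ[ℝ]) (hx : ‖x‖ = 1) : ∃ v : ℍ[ℝ], ‖v‖ = 1 ∧ inner ℝ x v = (0 : ℝ) := by
  refine ⟨qi * x, by rw [norm_mul, norm_qi, hx, one_mul], ?_⟩
  have h := inner_killing_self (a := 1) (b := 0) x
  simpa [killing] using h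

/-- great circle arcs -/
theorem exists_arc (x z : ℍ[ℝ]) (hx : ‖x‖ = 1) (hz : ‖z‖ = 1) :
    ∃ v : ℍ[ℝ], ‖v‖ = 1 ∧ inner ℝ x v = (0 : ℝ) ∧
      z = Real.cos (InnerProductGeometry.angle x z) • x +
        Real.sin (InnerProductGeometry.angle x z) • v := by
  set θ := InnerProductGeometry.angle x z with hθ
  have hcos : Real.cos θ = inner ℝ x z := by
    rw [hθ, InnerProductGeometry.cos_angle, hx, hz, mul_one, div_one]
  set w : ℍ[ℝ] := z - Real.cos θ • x with hw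
  have hxw : inner ℝ x w = (0 : ℝ) := by
    rw [hw, inner_sub_right, inner_smul_right, real_inner_self_eq_norm_sq, hx, hcos]
    ring
  have hww : ‖w‖ ^ 2 = Real.sin θ ^ 2 := by
    rw [Real.sin_sq, hw, norm_sub_sq_real, norm_smul, hx, hz, inner_smul_right, real_inner_comm x z,
      ← hcos, Real.norm_eq_abs, mul_one, sq_abs]
    ring
  by_cases hs : Real.sin θ = 0
  · obtain ⟨v, hv, hxv⟩ := exists_orth x hx
    refine ⟨v, hv, hxv, ?_⟩
    rw [hs] at hww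
    have : w = 0 := by
      rw [← norm_eq_zero]
      have : ‖w‖ ^ 2 = 0 := by rw [hww]; ring
      exact pow_eq_zero_iff two_ne_zero |>.mp this
    rw [hs, zero_smul, add_zero]
    rw [hw, sub_eq_zero] at this
    exact this
  · refine ⟨(1 / Real.sin θ) • w, ?_, ?_, ?_⟩
    · have h1 : ‖(1 / Real.sin θ) • w‖ ^ 2 = 1 := by
        rw [norm_smul, mul_pow, hww, Real.norm_eq_abs, sq_abs]
        field_simp
      have h2 : 0 ≤ ‖(1 / Real.sin θ) • w‖ := norm_nonneg _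
      nlinarith
    · rw [inner_smul_right, hxw, mul_zero]
    · rw [smul_smul, mul_one_div_cancel hs, one_smul, hw]
      abel

theorem min_ineq {F : Type*} [NormedAddCommGroup F] [InnerProductSpace ℝ F] (w v : F) (s : ℝ) :
    ‖w‖ ^ 2 - inner ℝ w v ^ 2 / (1 + ‖v‖ ^ 2) ≤ ‖w + s • v‖ ^ 2 + s ^ 2 := by
  rw [norm_add_sq_real, inner_smul_right, norm_smul, mul_pow, Real.norm_eq_abs, sq_abs]
  have h : (0 : ℝ) < 1 + ‖v‖ ^ 2 := by positivity
  have h1 : 0 ≤ (inner ℝ w v + s * (1 + ‖v‖ ^ 2)) ^ 2 / (1 + ‖v‖ ^ 2) := by positivity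
  have h2 : (inner ℝ w v + s * (1 + ‖v‖ ^ 2)) ^ 2 / (1 + ‖v‖ ^ 2) =
      inner ℝ w v ^ 2 / (1 + ‖v‖ ^ 2) + 2 * s * inner ℝ w v + s ^ 2 * (1 + ‖v‖ ^ 2) := by
    field_simp
    ring
  rw [h2] at h1
  nlinarith

theorem riemannianEDist_le_of [RiemannianBundle
    (fun x : sphere (0 : ℍ[ℝ]) 1 => TangentSpace (𝓡 3) x)]
    (h : ∀ (x : sphere (0 : ℍ[ℝ]) 1) (v : TangentSpace (𝓡 3) x), ‖v‖ ^ 2 =
        ‖dι x v‖ ^ 2 - inner ℝ (dι x v) (killing a b x) ^ 2 / (1 + ‖killing a b (x : ℍ[ℝ])‖ ^ 2))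
    (x y : sphere (0 : ℍ[ℝ]) 1) (u : ℝ) :
    Manifold.riemannianEDist (𝓡 3) x y ≤ ENNReal.ofReal (Real.sqrt
      (InnerProductGeometry.angle (x : ℍ[ℝ]) (tw (a * u) (b * u) y) ^ 2 + u ^ 2)) := by
  have hx : ‖(x : ℍ[ℝ])‖ = 1 := norm_eq_of_mem_sphere x
  have hy : ‖(y : ℍ[ℝ])‖ = 1 := norm_eq_of_mem_sphere y
  obtain ⟨v, hv, hxv, hz⟩ := exists_arc (x : ℍ[ℝ]) (tw (a * u) (b * u) y) hx
    (by rw [norm_tw, hy])
  set θ := InnerProductGeometry.angle (x : ℍ[ℝ]) (tw (a * u) (b * u) y) with hθ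
  have hθ0 : 0 ≤ θ := InnerProductGeometry.angle_nonneg _ _
  -- the great circle arc
  set c : ℝ → ℍ[ℝ] := fun t => Real.cos (θ * t) • (x : ℍ[ℝ]) + Real.sin (θ * t) • v with hc
  have hcn : ∀ t, ‖c t‖ = 1 := by
    intro t
    have h1 : ‖c t‖ ^ 2 = 1 := by
      rw [hc]
      simp only []
      rw [norm_add_sq_real, norm_smul, norm_smul, inner_smul_left, inner_smul_right, hxv, hx, hv,
        Real.norm_eq_abs, Real.norm_eq_abs, mul_one, mul_one, sq_abs, sq_abs]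
      have := Real.sin_sq_add_cos_sq (θ * t)
      simp
    have h2 : 0 ≤ ‖c t‖ := norm_nonneg _
    nlinarith
  set c' : ℝ → ℍ[ℝ] := fun t => θ • (-Real.sin (θ * t) • (x : ℍ[ℝ]) + Real.cos (θ * t) • v)
    with hc'
  have hcd : ∀ t, HasDerivAt c (c' t) t := by
    intro t
    have h0 : HasDerivAt (fun t : ℝ => θ * t) θ t := by
      simpa using (hasDerivAt_id t).const_mul θ
    have h1 := (h0.cos.smul_const (x : ℍ[ℝ])).add (h0.sin.smul_const v)
    refine h1.congr_deriv ?_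
    rw [hc']
    simp only []
    module
  have hc'n : ∀ t, ‖c' t‖ = θ := by
    intro t
    have h1 : ‖c' t‖ ^ 2 = θ ^ 2 := by
      rw [hc']
      simp only []
      rw [norm_smul, mul_pow, norm_add_sq_real, norm_smul, norm_smul, inner_smul_left,
        inner_smul_right, hxv, hx, hv, Real.norm_eq_abs, Real.norm_eq_abs, Real.norm_eq_abs,
        mul_one, mul_one, sq_abs, sq_abs, sq_abs]
      have := Real.sin_sq_add_cos_sq (θ * t)
      simp
    exact (pow_left_inj₀ (norm_nonneg _) hθ0 two_ne_zero).mp h1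
  -- the path in the sphere
  have hAd : ∀ t : ℝ, HasDerivAt (fun t : ℝ => -u * t) (-u) t := by
    intro t
    simpa using (hasDerivAt_id t).const_mul (-u)
  set Γ : ℝ → ℍ[ℝ] := fun t => tw (a * (-u * t)) (b * (-u * t)) (c t) with hΓ
  have hΓn : ∀ t, Γ t ∈ sphere (0 : ℍ[ℝ]) 1 := by
    intro t
    rw [mem_sphere_zero_iff_norm, hΓ]
    simp only []
    rw [norm_tw, hcn]
  have hΓs : ContDiff ℝ ∞ Γ := by
    have e1 : ContDiff ℝ ∞ (fun t : ℝ => cis (a * (-u * t))) := contDiff_cis.comp (by fun_prop)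
    have e2 : ContDiff ℝ ∞ (fun t : ℝ => cis (-(b * (-u * t)))) := contDiff_cis.comp (by fun_prop)
    have e3 : ContDiff ℝ ∞ c := by
      rw [hc]
      exact ((Real.contDiff_cos.comp (by fun_prop)).smul contDiff_const).add
        ((Real.contDiff_sin.comp (by fun_prop)).smul contDiff_const)
    exact (e1.mul e3).mul e2
  have hΓd : ∀ t s, HasDerivWithinAt Γ
      (tw (a * (-u * t)) (b * (-u * t)) (c' t + (-u) • killing a b (c t))) s t :=
    fun t s => hasDerivWithinAt_tw_comp (hAd t).hasDerivWithinAt (hcd t).hasDerivWithinAt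
  set γ : ℝ → sphere (0 : ℍ[ℝ]) 1 := Set.codRestrict Γ _ hΓn with hγ
  have hγs : ContMDiff 𝓘(ℝ, ℝ) (𝓡 3) 1 γ :=
    ContMDiff.codRestrict_sphere (m := 1) (hΓs.of_le (by norm_num)).contMDiff hΓn
  have hγ0 : γ 0 = x := by
    apply Subtype.ext
    simp [hγ, hΓ, hc, tw_zero]
  have hγ1 : γ 1 = y := by
    apply Subtype.ext
    simp only [hγ, hΓ, hc, Set.val_codRestrict_apply, mul_one]
    rw [← hz, tw_tw]
    convert tw_zero (y : ℍ[ℝ]) using 2 <;> ring
  refine (Manifold.riemannianEDist_le_pathELength hγs.contMDiffOn hγ0 hγ1 zero_le_one).trans ?_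
  rw [Manifold.pathELength_eq_lintegral_mfderivWithin_Icc]
  have hsp : ∀ t ∈ Icc (0 : ℝ) 1, ‖mfderivWithin 𝓘(ℝ, ℝ) (𝓡 3) γ (Icc 0 1) t (1 : ℝ)‖ₑ
      ≤ ENNReal.ofReal (Real.sqrt (θ ^ 2 + u ^ 2)) := by
    intro t ht
    have hu : UniqueDiffWithinAt ℝ (Icc (0 : ℝ) 1) t := uniqueDiffOn_Icc zero_lt_one t ht
    have h1 := speed_sq h ((hγs.mdifferentiable one_ne_zero).mdifferentiableAt.mdifferentiableWithinAt
      (s := Icc (0 : ℝ) 1) (x := t)) hu
    have h2 : derivWithin (fun t => (γ t : ℍ[ℝ])) (Icc 0 1) t =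
        tw (a * (-u * t)) (b * (-u * t)) (c' t + (-u) • killing a b (c t)) :=
      (hΓd t (Icc 0 1)).derivWithin hu
    have h3 : (γ t : ℍ[ℝ]) = tw (a * (-u * t)) (b * (-u * t)) (c t) := rfl
    rw [h2, h3] at h1
    have h4 := min_ineq (tw (a * (-u * t)) (b * (-u * t)) (c' t + (-u) • killing a b (c t)))
      (killing a b (tw (a * (-u * t)) (b * (-u * t)) (c t))) u
    have h5 : tw (a * (-u * t)) (b * (-u * t)) (c' t + (-u) • killing a b (c t)) +
        u • killing a b (tw (a * (-u * t)) (b * (-u * t)) (c t)) =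
        tw (a * (-u * t)) (b * (-u * t)) (c' t) := by
      rw [tw_add, tw_smul _ _ (-u), tw_killing]
      module
    rw [h5, ← h1, norm_tw, hc'n] at h4
    rw [← ofReal_norm]
    exact ENNReal.ofReal_le_ofReal (Real.le_sqrt_of_sq_le h4)
  calc ∫⁻ t in Icc (0 : ℝ) 1, ‖mfderivWithin 𝓘(ℝ, ℝ) (𝓡 3) γ (Icc 0 1) t (1 : ℝ)‖ₑ
      ≤ ∫⁻ _t in Icc (0 : ℝ) 1, ENNReal.ofReal (Real.sqrt (θ ^ 2 + u ^ 2)) :=
        setLIntegral_mono' measurableSet_Icc hsp
    _ = ENNReal.ofReal (Real.sqrt (θ ^ 2 + u ^ 2)) := by simp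

/-- S3 -/
theorem riemannianEDist_le (a b : ℝ) [RiemannianBundle
    (fun x : sphere (0 : ℍ[ℝ]) 1 => TangentSpace (𝓡 3) x)]
    (h : ∀ (x : sphere (0 : ℍ[ℝ]) 1) (v : TangentSpace (𝓡 3) x), ‖v‖ ^ 2 =
        ‖dι x v‖ ^ 2 - inner ℝ (dι x v) (killing a b x) ^ 2 / (1 + ‖killing a b (x : ℍ[ℝ])‖ ^ 2))
    (x y : sphere (0 : ℍ[ℝ]) 1) :
    Manifold.riemannianEDist (𝓡 3) x y ≤ ENNReal.ofReal (dR a b x y) := by
  obtain ⟨u, hu⟩ := dR_attained a b (x : ℍ[ℝ]) (y : ℍ[ℝ])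
  rw [hu]
  exact riemannianEDist_le_of h x y u

/-! ### block S4 -/

theorem min_eq {F : Type*} [NormedAddCommGroup F] [InnerProductSpace ℝ F] (w v : F) {s : ℝ}
    (hs : s = -inner ℝ w v / (1 + ‖v‖ ^ 2)) :
    ‖w + s • v‖ ^ 2 + s ^ 2 = ‖w‖ ^ 2 - inner ℝ w v ^ 2 / (1 + ‖v‖ ^ 2) := by
  rw [norm_add_sq_real, inner_smul_right, norm_smul, mul_pow, Real.norm_eq_abs, sq_abs, hs]
  have h : (0 : ℝ) < 1 + ‖v‖ ^ 2 := by positivity
  field_simp
  ring

/-- S4 -/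
theorem le_riemannianEDist (a b : ℝ) [RiemannianBundle
    (fun x : sphere (0 : ℍ[ℝ]) 1 => TangentSpace (𝓡 3) x)]
    (h : ∀ (x : sphere (0 : ℍ[ℝ]) 1) (v : TangentSpace (𝓡 3) x), ‖v‖ ^ 2 =
        ‖dι x v‖ ^ 2 - inner ℝ (dι x v) (killing a b x) ^ 2 / (1 + ‖killing a b (x : ℍ[ℝ])‖ ^ 2))
    (x y : sphere (0 : ℍ[ℝ]) 1) :
    ENNReal.ofReal (dR a b x y) ≤ Manifold.riemannianEDist (𝓡 3) x y := by
  refine le_of_forall_gt fun r hr => ?_
  obtain ⟨γ, hγ0, hγ1, hγs, hγl⟩ := Manifold.exists_lt_of_riemannianEDist_lt hr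
  refine lt_of_le_of_lt ?_ hγl
  set I : Set ℝ := Icc (0 : ℝ) 1 with hI
  have hU : UniqueDiffOn ℝ I := uniqueDiffOn_Icc zero_lt_one
  -- the ambient path
  set X : ℝ → ℍ[ℝ] := fun t => (γ t : ℍ[ℝ]) with hX
  have hXs : ContDiffOn ℝ 1 X I := by
    rw [← contMDiffOn_iff_contDiffOn]
    exact (contMDiff_coe_sphere (m := 1)).comp_contMDiffOn hγs
  set X' : ℝ → ℍ[ℝ] := derivWithin X I with hX'
  have hX'c : ContinuousOn X' I := hXs.continuousOn_derivWithin hU le_rfl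
  have hXd : ∀ t ∈ I, HasDerivWithinAt X (X' t) I t := fun t ht =>
    (hXs.differentiableOn one_ne_zero t ht).hasDerivWithinAt
  have hkc : Continuous (killing a b) := contDiff_killing.continuous
  -- the optimal rotation speed
  set s : ℝ → ℝ := fun t => -inner ℝ (X' t) (killing a b (X t)) / (1 + ‖killing a b (X t)‖ ^ 2)
    with hs
  have hsc : ContinuousOn s I := by
    have hk : ContinuousOn (fun t => killing a b (X t)) I :=
      hkc.comp_continuousOn hXs.continuousOn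
    refine ((hX'c.inner hk).neg).div (continuousOn_const.add (hk.norm.pow 2)) fun t _ => ?_
    positivity
  set st : ℝ → ℝ := IccExtend zero_le_one (I.domRestrict s) with hst
  have hstc : Continuous st := (continuousOn_iff_continuous_domRestrict.mp hsc).Icc_extend'
  have hsts : ∀ t ∈ I, st t = s t := fun t ht => by
    rw [hst, IccExtend_of_mem zero_le_one _ ht]
    rfl
  set A : ℝ → ℝ := fun t => ∫ τ in (0 : ℝ)..t, st τ with hA
  have hAd : ∀ t, HasDerivAt A (st t) t := fun t => hstc.integral_hasStrictDerivAt 0 t |>.hasDerivAt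
  have hAs : ContDiff ℝ 1 A := by
    rw [contDiff_one_iff_deriv]
    refine ⟨fun t => (hAd t).differentiableAt, ?_⟩
    rw [show deriv A = st from funext fun t => (hAd t).deriv]
    exact hstc
  have hA0 : A 0 = 0 := intervalIntegral.integral_same
  -- the rotated path
  set Γ : ℝ → ℍ[ℝ] := fun t => tw (a * A t) (b * A t) (X t) with hΓ
  have hΓs : ContDiffOn ℝ 1 Γ I := by
    have e0 : ContDiff ℝ 1 cis := contDiff_cis.of_le (by norm_num)
    have e1 : ContDiff ℝ 1 (fun t : ℝ => cis (a * A t)) := e0.comp (contDiff_const.mul hAs)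
    have e2 : ContDiff ℝ 1 (fun t : ℝ => cis (-(b * A t))) := e0.comp (contDiff_const.mul hAs).neg
    exact (e1.contDiffOn.mul hXs).mul e2.contDiffOn
  have hΓn : ∀ t ∈ I, ‖Γ t‖ = 1 := fun t _ => by
    rw [hΓ]
    simp only []
    rw [norm_tw]
    exact norm_eq_of_mem_sphere (γ t)
  have hΓd : ∀ t ∈ I, derivWithin Γ I t = tw (a * A t) (b * A t) (X' t + s t • killing a b (X t)) :=
    fun t ht => by
      have := hasDerivWithinAt_tw_comp (a := a) (b := b) (hAd t).hasDerivWithinAt (hXd t ht)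
      rw [hsts t ht] at this
      exact this.derivWithin (hU t ht)
  have hAd' : ∀ t ∈ I, derivWithin A I t = s t := fun t ht => by
    rw [(hAd t).hasDerivWithinAt.derivWithin (hU t ht), hsts t ht]
  have key := cylinder_le_length hΓs hΓn hAs.contDiffOn
  have h1 : dR a b x y ≤ ∫ t in (0 : ℝ)..1, Real.sqrt (‖derivWithin Γ I t‖ ^ 2 +
        derivWithin A I t ^ 2) := by
    refine (dR_le a b x y (A 1)).trans (le_trans (le_of_eq ?_) key)
    rw [hA0, sub_zero]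
    have e1 : Γ 0 = x := by
      rw [hΓ]
      simp only []
      rw [hA0, mul_zero, mul_zero, tw_zero, hX]
      simp only []
      rw [hγ0]
    have e2 : Γ 1 = tw (a * A 1) (b * A 1) y := by
      rw [hΓ]
      simp only []
      rw [hX]
      simp only []
      rw [hγ1]
    rw [e1, e2]
  set f : ℝ → ℝ := fun t => Real.sqrt (‖derivWithin Γ I t‖ ^ 2 + derivWithin A I t ^ 2) with hf
  have hfc : ContinuousOn f I := by
    have e1 : ContinuousOn (derivWithin Γ I) I := hΓs.continuousOn_derivWithin hU le_rfl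
    have e2 : ContinuousOn (derivWithin A I) I :=
      hAs.contDiffOn.continuousOn_derivWithin hU le_rfl
    exact ((e1.norm.pow 2).add (e2.pow 2)).sqrt
  refine (ENNReal.ofReal_le_ofReal h1).trans ?_
  rw [intervalIntegral.integral_of_le zero_le_one, ← integral_Icc_eq_integral_Ioc,
    ofReal_integral_eq_lintegral_ofReal (hfc.integrableOn_Icc)
      (Filter.Eventually.of_forall fun t => Real.sqrt_nonneg _),
    Manifold.pathELength_eq_lintegral_mfderivWithin_Icc]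
  refine setLIntegral_mono' measurableSet_Icc fun t ht => ?_
  have h2 := speed_sq h ((hγs.mdifferentiableOn one_ne_zero) t ht) (hU t ht)
  rw [← ofReal_norm]
  refine ENNReal.ofReal_le_ofReal (le_of_eq ?_)
  have h3 : ‖derivWithin Γ I t‖ ^ 2 + derivWithin A I t ^ 2 =
      ‖X' t‖ ^ 2 - inner ℝ (X' t) (killing a b (X t)) ^ 2 / (1 + ‖killing a b (X t)‖ ^ 2) := by
    rw [hΓd t ht, hAd' t ht, norm_tw]
    exact min_eq (X' t) (killing a b (X t)) rfl
  rw [hf]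
  simp only []
  rw [h3, ← h2]
  exact Real.sqrt_sq (norm_nonneg _)

end S34

end Helper99.BQ
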